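import Pool.Agent.Helper85_Leo.Main

/-!
# Leopoldt's conjecture for infinitely many non-Galois number fields of every signature

For every signature `(r₁, r₂)` of degree at least `3`, every finite set `S` of primes and every
finite list of number fields, there is a number field of signature `(r₁, r₂)`, not Galois over `ℚ`,
not isomorphic to a field of the list, for which Leopoldt's conjecture holds at all primes in `S`.
(One can take `K = ℚ(θ)` with
`(∏_{i < r₁} (θ - M i)) (∏_{j < r₂} (θ² + M² (j+1)²)) = 1` for suitable `M`.)

`LeopoldtAt K p`, defined in `Pool/Agent/Helper85_Leo/Defs.lean`, is the statement of the frozen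
statement S17123 for the fixed field `K` and prime `p`.
-/

set_option autoImplicit false

open Polynomial NumberField Pool.Agent.Helper85_Leo

namespace Pool.Agent.Helper49_Moved.InfFamLeopoldt

theorem result (r₁ r₂ : ℕ) (hn : 3 ≤ r₁ + 2 * r₂) (S : Finset ℕ)
    (k : ℕ) (L : Fin k → Type) [∀ i, Field (L i)] [∀ i, NumberField (L i)] :
    ∃ (K : Type) (_ : Field K) (_ : NumberField K),
      InfinitePlace.nrRealPlaces K = r₁ ∧ InfinitePlace.nrComplexPlaces K = r₂ ∧
      ¬ IsGalois ℚ K ∧ (∀ i, IsEmpty (K ≃+* L i)) ∧
      ∀ p ∈ S, ∀ [Fact p.Prime], LeopoldtAt K p :=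
  exists_leopoldt_field r₁ r₂ hn S k L

end Pool.Agent.Helper49_Moved.InfFamLeopoldt
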